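import Mathlib

namespace Pool.Agent.Results.MP_e83c66_co.FixedClique

/-- `f` is a simplicial endomorphism of the graph `G`: adjacent vertices are sent to equal or
adjacent vertices. -/
def IsSimplicialEndo {V : Type*} (G : SimpleGraph V) (f : V → V) : Prop :=
  ∀ x y, G.Adj x y → f x = f y ∨ G.Adj (f x) (f y)

/-- The fixed clique property: every simplicial endomorphism `f` fixes some (nonempty) clique `C`,
i.e. `f[C] = C`. -/
def FixedCliqueProperty {V : Type*} (G : SimpleGraph V) : Prop :=
  ∀ f : V → V, IsSimplicialEndo G f → ∃ C : Set V, C.Nonempty ∧ G.IsClique C ∧ f '' C = C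

/-! ### A verified search for endomorphisms without fixed cliques -/

/-- update -/
def upd (g : ℕ → ℕ) (k w : ℕ) : ℕ → ℕ := fun i => cond (Nat.beq i k) w (g i)

theorem upd_same (g : ℕ → ℕ) (k w : ℕ) : upd g k w k = w := by simp [upd]

theorem upd_ne (g : ℕ → ℕ) (k w i : ℕ) (h : i ≠ k) : upd g k w i = g i := by
  have : Nat.beq i k = false := by
    cases hb : Nat.beq i k with
    | false => rfl
    | true => exact absurd (Nat.eq_of_beq_eq_true hb) h
  simp [upd, this]

/-- adjacency is preserved -/
def consistent (A : ℕ → ℕ → Bool) (done : List ℕ) (g : ℕ → ℕ) (k w : ℕ) : Bool :=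
  done.all fun i => !A k i || (Nat.beq w (g i) || A w (g i))

/-- membership -/
def mem (l : List ℕ) (x : ℕ) : Bool := l.any fun y => Nat.beq x y

/-- the new vertex closes a cycle of length at most three whose vertices form a clique -/
def cyc (A : ℕ → ℕ → Bool) (done : List ℕ) (g : ℕ → ℕ) (k w : ℕ) : Bool :=
  Nat.beq w k || (mem done w && (A k w &&
    (Nat.beq (g w) k || (mem done (g w) && (A k (g w) && (A w (g w) && Nat.beq (g (g w)) k))))))

/-- the search -/
def chk (A : ℕ → ℕ → Bool) (S : List ℕ) : List ℕ → List ℕ → (ℕ → ℕ) → Bool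
  | [], _, _ => false
  | k :: todo, done, g =>
    S.all fun w => !consistent A done g k w ||
      (cyc A done g k w || chk A S todo (k :: done) (upd g k w))

theorem mem_iff (l : List ℕ) (x : ℕ) : mem l x = true ↔ x ∈ l := by
  unfold mem
  rw [List.any_eq_true]
  constructor
  · rintro ⟨y, hy, h⟩
    rw [Nat.eq_of_beq_eq_true h]; exact hy
  · intro h
    exact ⟨x, h, Nat.beq_refl x⟩

theorem chk_sound (A : ℕ → ℕ → Bool) (hA : ∀ x y, A x y = A y x) (S : List ℕ) (f : ℕ → ℕ)
    (hf : ∀ x ∈ S, f x ∈ S)
    (hs : ∀ x ∈ S, ∀ y ∈ S, A x y = true → f x = f y ∨ A (f x) (f y) = true) :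
    ∀ (todo done : List ℕ) (g : ℕ → ℕ), chk A S todo done g = true →
      (∀ x ∈ done, g x = f x) → (∀ x ∈ done, x ∈ S) → (∀ x ∈ todo, x ∈ S) →
      ∃ C : Set ℕ, C.Nonempty ∧ (∀ x ∈ C, x ∈ S) ∧
        (∀ x ∈ C, ∀ y ∈ C, x ≠ y → A x y = true) ∧ f '' C = C := by
  intro todo
  induction todo with
  | nil => intro done g h; simp [chk] at h
  | cons k todo ih =>
    intro done g h hg hd ht
    rw [chk, List.all_eq_true] at h
    have hk : k ∈ S := ht k (by simp)
    have h1 := h (f k) (hf k hk)
    rw [Bool.or_eq_true, Bool.or_eq_true] at h1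
    rcases h1 with h1 | h1 | h1
    · exfalso
      have : consistent A done g k (f k) = true := by
        unfold consistent
        rw [List.all_eq_true]
        intro i hi
        rw [hg i hi]
        cases hAk : A k i with
        | false => rfl
        | true =>
          rcases hs k hk i (hd i hi) hAk with h2 | h2
          · rw [h2]; simp
          · rw [h2]; simp
      rw [this] at h1
      simp at h1
    · unfold cyc at h1
      rw [Bool.or_eq_true] at h1
      rcases h1 with h1 | h1
      · have e := Nat.eq_of_beq_eq_true h1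
        refine ⟨{k}, ⟨k, rfl⟩, ?_, ?_, ?_⟩
        · intro x hx; rw [Set.mem_singleton_iff] at hx; rw [hx]; exact hk
        · intro x hx y hy hxy
          rw [Set.mem_singleton_iff] at hx hy
          exact absurd (hx.trans hy.symm) hxy
        · rw [Set.image_singleton, e]
      · rw [Bool.and_eq_true, Bool.and_eq_true, Bool.or_eq_true, mem_iff] at h1
        obtain ⟨hw, hkw, h1⟩ := h1
        rw [hg _ hw] at h1
        rcases h1 with h1 | h1
        · have e := Nat.eq_of_beq_eq_true h1
          refine ⟨{k, f k}, ⟨k, by simp⟩, ?_, ?_, ?_⟩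
          · rintro x (rfl | rfl)
            · exact hk
            · exact hf _ hk
          · rintro x (rfl | rfl) y (rfl | rfl) hxy
            · exact absurd rfl hxy
            · exact hkw
            · rw [hA]; exact hkw
            · exact absurd rfl hxy
          · rw [Set.image_pair, e, Set.pair_comm]
        · rw [Bool.and_eq_true, Bool.and_eq_true, Bool.and_eq_true, mem_iff] at h1
          obtain ⟨hw2, hk2, hww, h1⟩ := h1
          rw [hg _ hw2] at h1
          have e := Nat.eq_of_beq_eq_true h1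
          refine ⟨{k, f k, f (f k)}, ⟨k, by simp⟩, ?_, ?_, ?_⟩
          · rintro x (rfl | rfl | rfl)
            · exact hk
            · exact hf _ hk
            · exact hf _ (hf _ hk)
          · rintro x (rfl | rfl | rfl) y (rfl | rfl | rfl) hxy
            · exact absurd rfl hxy
            · exact hkw
            · exact hk2
            · rw [hA]; exact hkw
            · exact absurd rfl hxy
            · exact hww
            · rw [hA]; exact hk2
            · rw [hA]; exact hww
            · exact absurd rfl hxy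
          · rw [Set.image_insert_eq, Set.image_pair, e]
            ext z
            simp only [Set.mem_insert_iff, Set.mem_singleton_iff]
            tauto
    · refine ih (k :: done) (upd g k (f k)) h1 ?_ ?_ ?_
      · intro x hx
        by_cases hxk : x = k
        · rw [hxk, upd_same]
        · rw [upd_ne _ _ _ _ hxk]
          rcases List.mem_cons.1 hx with h2 | h2
          · exact absurd h2 hxk
          · exact hg x h2
      · intro x hx
        rcases List.mem_cons.1 hx with h2 | h2
        · rw [h2]; exact hk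
        · exact hd x h2
      · intro x hx
        exact ht x (List.mem_cons_of_mem _ hx)

/-! ### The graph -/

/-- adjacency of the graph, as a bit table -/
def A (i j : ℕ) : Bool := Nat.testBit 730522057214580090694286 (9 * i + j) && (Nat.blt i 9 && Nat.blt j 9)

theorem A_bound (i j : ℕ) (h : A i j = true) : i < 9 ∧ j < 9 := by
  unfold A at h
  rw [Bool.and_eq_true, Bool.and_eq_true] at h
  exact ⟨by simpa [Nat.blt_eq] using h.2.1, by simpa [Nat.blt_eq] using h.2.2⟩

theorem A_symm9 : ∀ i < 9, ∀ j < 9, A i j = A j i := by decide +kernel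

theorem A_irr9 : ∀ i < 9, A i i = false := by decide +kernel

theorem A_symm (i j : ℕ) : A i j = A j i := by
  by_cases h : i < 9 ∧ j < 9
  · exact A_symm9 i h.1 j h.2
  · have h1 : A i j = false := by
      cases h2 : A i j with
      | false => rfl
      | true => exact absurd (A_bound _ _ h2) h
    have h3 : A j i = false := by
      cases h2 : A j i with
      | false => rfl
      | true => exact absurd (A_bound _ _ h2).symm h
    rw [h1, h3]

/-- The graph on nine vertices. -/
def G : SimpleGraph (Fin 9) where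
  Adj i j := A i j = true
  symm := ⟨fun i j h => by rw [A_symm]; exact h⟩
  loopless := ⟨fun i h => by
    have := A_irr9 i i.2
    rw [this] at h
    exact Bool.false_ne_true h⟩

/-- Soundness for induced subgraphs. -/
theorem fcp_of_chk (T : Set (Fin 9)) (L : List ℕ)
    (hL : ∀ n : ℕ, n ∈ L ↔ ∃ h : n < 9, (⟨n, h⟩ : Fin 9) ∈ T)
    (hc : chk A L L [] (fun _ => 0) = true) : FixedCliqueProperty (G.induce T) := by
  classical
  intro g hg
  -- extend `g` to the natural numbers
  let f : ℕ → ℕ := fun n => if h : ∃ h : n < 9, (⟨n, h⟩ : Fin 9) ∈ T then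
    ((g ⟨⟨n, h.choose⟩, h.choose_spec⟩).1 : ℕ) else 0
  have hfx : ∀ x : T, f (x.1 : ℕ) = ((g x).1 : ℕ) := by
    intro x
    have h : ∃ h : (x.1 : ℕ) < 9, (⟨(x.1 : ℕ), h⟩ : Fin 9) ∈ T := ⟨x.1.2, x.2⟩
    simp only [f, dif_pos h]
  have hmem : ∀ x : T, (x.1 : ℕ) ∈ L := fun x => (hL _).2 ⟨x.1.2, x.2⟩
  have hlift : ∀ n ∈ L, ∃ x : T, (x.1 : ℕ) = n := by
    intro n hn
    obtain ⟨h, h2⟩ := (hL n).1 hn
    exact ⟨⟨⟨n, h⟩, h2⟩, rfl⟩
  obtain ⟨C, hC1, hC2, hC3, hC4⟩ := chk_sound A A_symm L f
    (by
      intro x hx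
      obtain ⟨y, rfl⟩ := hlift x hx
      rw [hfx]; exact hmem _)
    (by
      intro x hx y hy hxy
      obtain ⟨x, rfl⟩ := hlift x hx
      obtain ⟨y, rfl⟩ := hlift y hy
      rw [hfx, hfx]
      rcases hg x y hxy with h | h
      · left; rw [h]
      · right; exact h)
    L [] (fun _ => 0) hc (by simp) (by simp) (fun x hx => hx)
  refine ⟨{x | (x.1 : ℕ) ∈ C}, ?_, ?_, ?_⟩
  · obtain ⟨n, hn⟩ := hC1
    obtain ⟨x, rfl⟩ := hlift n (hC2 n hn)
    exact ⟨x, hn⟩
  · intro x hx y hy hxy
    refine hC3 _ hx _ hy ?_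
    intro h
    exact hxy (Subtype.ext (Fin.ext h))
  · ext x
    constructor
    · rintro ⟨y, hy, rfl⟩
      have : f (y.1 : ℕ) ∈ f '' C := ⟨_, hy, rfl⟩
      rw [hC4, hfx] at this
      exact this
    · intro hx
      have hx' : ((x.1 : ℕ)) ∈ C := hx
      rw [← hC4] at hx'
      obtain ⟨n, hn, hfn⟩ := hx'
      obtain ⟨y, rfl⟩ := hlift n (hC2 n hn)
      refine ⟨y, hn, ?_⟩
      rw [hfx] at hfn
      exact Subtype.ext (Fin.ext hfn)

theorem chk_eight : chk A [0, 1, 2, 3, 4, 5, 6, 7] [0, 1, 2, 3, 4, 5, 6, 7] [] (fun _ => 0) = true := by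
  decide +kernel

theorem chk_link : chk A [1, 3, 4, 7] [1, 3, 4, 7] [] (fun _ => 0) = true := by
  decide +kernel

/-- the endomorphism without fixed clique -/
def φ : Fin 9 → Fin 9 := ![5, 6, 5, 1, 7, 4, 8, 3, 5]

theorem phi_endo : IsSimplicialEndo G φ := by
  have : ∀ x y : Fin 9, A x y = true → φ x = φ y ∨ A (φ x) (φ y) = true := by decide +kernel
  intro x y h
  exact this x y h

theorem phi_orbit : ∀ x : Fin 9, ∃ i < 9, ∃ j < 9, φ^[i] x ≠ φ^[j] x ∧
    A (φ^[i] x) (φ^[j] x) = false := by decide +kernel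

theorem not_fcp : ¬ FixedCliqueProperty G := by
  intro h
  obtain ⟨C, ⟨x, hx⟩, hC, hfC⟩ := h φ phi_endo
  have hmaps : ∀ i, φ^[i] x ∈ C := by
    intro i
    induction i with
    | zero => exact hx
    | succ n ih =>
      rw [Function.iterate_succ_apply']
      rw [← hfC]
      exact ⟨_, ih, rfl⟩
  obtain ⟨i, _, j, _, hij, hA⟩ := phi_orbit x
  have := hC (hmaps i) (hmaps j) hij
  have h2 : A (φ^[i] x) (φ^[j] x) = true := this
  rw [hA] at h2
  exact Bool.false_ne_true h2

/-- There are a finite graph `G` (on nine vertices) and a vertex `v` such that the subgraph induced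
on the neighbours of `v` and the subgraph induced on all vertices other than `v` both have the fixed
clique property, while `G` itself does not. -/
theorem result : ∃ (G : SimpleGraph (Fin 9)) (v : Fin 9),
    FixedCliqueProperty (G.induce (G.neighborSet v)) ∧
    FixedCliqueProperty (G.induce {w | w ≠ v}) ∧
    ¬ FixedCliqueProperty G := by
  refine ⟨G, 8, ?_, ?_, not_fcp⟩
  · apply fcp_of_chk _ [1, 3, 4, 7] _ chk_link
    intro n
    have h1 : ∀ n : Fin 9, n.1 ∈ [1, 3, 4, 7] ↔ A 8 n = true := by decide +kernel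
    constructor
    · intro hn
      have hn9 : n < 9 := by
        simp only [List.mem_cons, List.not_mem_nil, or_false] at hn
        omega
      exact ⟨hn9, (h1 ⟨n, hn9⟩).1 hn⟩
    · rintro ⟨hn9, hn⟩
      exact (h1 ⟨n, hn9⟩).2 hn
  · apply fcp_of_chk _ [0, 1, 2, 3, 4, 5, 6, 7] _ chk_eight
    intro n
    have h1 : ∀ n : Fin 9, n.1 ∈ [0, 1, 2, 3, 4, 5, 6, 7] ↔ n ≠ 8 := by decide +kernel
    constructor
    · intro hn
      have hn9 : n < 9 := by
        simp only [List.mem_cons, List.not_mem_nil, or_false] at hn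
        omega
      exact ⟨hn9, (h1 ⟨n, hn9⟩).1 hn⟩
    · rintro ⟨hn9, hn⟩
      exact (h1 ⟨n, hn9⟩).2 hn

end Pool.Agent.Results.MP_e83c66_co.FixedClique
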